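import Mathlib
import Pool.Agent.K4H12.Comb

/-!
# The degree-vector neighborhood ideal of a chordal graph

For every chordal graph `G` without isolated vertices, with `k` its degree-vector, over every
field `K`, `reg (S / NI_k(G)) ≤ τ(G) - c(G)`.
-/

set_option autoImplicit false
set_option linter.unusedSectionVars false

namespace Pool.Agent.Results.MP_0205ad_al.ChordalRegularity

open MvPolynomial

/-- `G` is chordal: every cycle `p 0, p 1, ..., p (m + 3)` (distinct vertices, cyclically
consecutive ones adjacent) of length `m + 4 ≥ 4` has a chord, an edge between two vertices of the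
cycle that are not cyclically consecutive. -/
def IsChordal {V : Type*} (G : SimpleGraph V) : Prop :=
  ∀ (m : ℕ) (p : Fin (m + 4) → V), Function.Injective p → (∀ i, G.Adj (p i) (p (i + 1))) →
    ∃ i j, G.Adj (p i) (p j) ∧ j ≠ i + 1 ∧ i ≠ j + 1

/-- The `k`-neighborhood ideal for the degree-vector `k` of `G`: it is generated by the monomials
`x_W`, `W` a set of `deg i` vertices of the closed neighborhood of `i`, `i` a vertex. -/
noncomputable def NI (K : Type*) [Field K] {n : ℕ} (G : SimpleGraph (Fin n)) :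
    Ideal (MvPolynomial (Fin n) K) :=
  Ideal.span {m : MvPolynomial (Fin n) K | ∃ (i : Fin n) (W : Finset (Fin n)),
    (∀ j ∈ W, j = i ∨ G.Adj i j) ∧ W.card = (G.neighborSet i).ncard ∧ m = ∏ j ∈ W, X j}

/-- The Koszul differential of `x_1, ..., x_n`; the chain `f` stands for `∑ f T e_T`. -/
noncomputable def koszulD {K : Type*} [Field K] {n : ℕ}
    (f : Finset (Fin n) → MvPolynomial (Fin n) K) (S : Finset (Fin n)) : MvPolynomial (Fin n) K :=
  ∑ t ∈ Finset.univ \ S,
    (-1 : MvPolynomial (Fin n) K) ^ (S.filter (· < t)).card * X t * f (insert t S)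

/-- `HasTor I i d`: the Koszul homology `H_i(x_1, ..., x_n; S/I) = Tor_i(S/I, K)` is nonzero in
internal degree `i + d`, that is, there is a chain of Koszul degree `i`, homogeneous of degree
`d`, that is a cycle modulo `I` and not a boundary modulo `I`. -/
def HasTor {K : Type*} [Field K] {n : ℕ} (I : Ideal (MvPolynomial (Fin n) K)) (i d : ℕ) : Prop :=
  ∃ f : Finset (Fin n) → MvPolynomial (Fin n) K,
    (∀ T : Finset (Fin n), T.card ≠ i → f T = 0) ∧
    (∀ T : Finset (Fin n), (f T).IsHomogeneous d) ∧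
    (∀ S : Finset (Fin n), koszulD f S ∈ I) ∧
    ¬ ∃ g : Finset (Fin n) → MvPolynomial (Fin n) K,
      (∀ U : Finset (Fin n), U.card ≠ i + 1 → g U = 0) ∧
      ∀ T : Finset (Fin n), f T - koszulD g T ∈ I

/-- The Castelnuovo-Mumford regularity `max {j - i : Tor_i(S/I, K)_j ≠ 0}` of `S/I`. -/
noncomputable def regQuot {K : Type*} [Field K] {n : ℕ} (I : Ideal (MvPolynomial (Fin n) K)) :
    ℕ∞ :=
  ⨆ (d : ℕ) (_ : ∃ i, HasTor I i d), (d : ℕ∞)

variable {K : Type*} [Field K] {n : ℕ}

lemma isChordal_bridge {G : SimpleGraph (Fin n)} (hG : IsChordal G) :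
    H255R3.STC.IsChordal G := by
  intro k hk
  obtain ⟨m, rfl⟩ : ∃ m, k = m + 4 := ⟨k - 4, by omega⟩
  refine ⟨fun e => ?_⟩
  obtain ⟨i, j, hij, h1, h2⟩ := hG m e e.injective (by
    intro i
    rw [e.map_adj_iff, SimpleGraph.cycleGraph_adj]
    right
    simp)
  rw [e.map_adj_iff, SimpleGraph.cycleGraph_adj] at hij
  rcases hij with h | h
  · apply h2
    rw [← h]; abel
  · apply h1
    rw [← h]; abel

open K4H12

lemma card_cnb (G : SimpleGraph (Fin n)) (i : Fin n) :
    (cnb G i).card = (G.neighborSet i).ncard + 1 := by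
  classical
  have e : cnb G i = insert i (G.neighborFinset i) := by
    ext j
    rw [mem_cnb, Finset.mem_insert, SimpleGraph.mem_neighborFinset]
  rw [e, Finset.card_insert_of_notMem (by simp)]
  congr 1
  have := Set.ncard_coe_finset (G.neighborFinset i)
  rw [SimpleGraph.coe_neighborFinset] at this
  exact this.symm

lemma mem_NI (G : SimpleGraph (Fin n)) (p : MvPolynomial (Fin n) K) :
    p ∈ NI K G ↔ InP (Bad G ∅ ∅) p := by
  classical
  have hspan : NI K G = Ideal.span ((fun s => monomial s (1 : K)) ''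
      {s : Fin n →₀ ℕ | ∃ (i : Fin n) (W : Finset (Fin n)), (∀ j ∈ W, j = i ∨ G.Adj i j) ∧
        W.card = (G.neighborSet i).ncard ∧ s = ∑ j ∈ W, Finsupp.single j 1}) := by
    unfold NI
    congr 1
    ext m
    constructor
    · rintro ⟨i, W, h1, h2, rfl⟩
      refine ⟨_, ⟨i, W, h1, h2, rfl⟩, ?_⟩
      simp only
      rw [monomial_sum_one]
      rfl
    · rintro ⟨s, ⟨i, W, h1, h2, rfl⟩, rfl⟩
      refine ⟨i, W, h1, h2, ?_⟩
      simp only
      rw [monomial_sum_one]
      rfl
  rw [hspan, mem_ideal_span_monomial_image]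
  have hle : ∀ (W : Finset (Fin n)) (m : Fin n →₀ ℕ),
      (∑ j ∈ W, Finsupp.single j 1) ≤ m ↔ W ⊆ m.support := by
    intro W m
    have hval : ∀ x, (∑ j ∈ W, Finsupp.single j 1 : Fin n →₀ ℕ) x = if x ∈ W then 1 else 0 := by
      intro x
      rw [Finsupp.finsetSum_apply]
      by_cases hx : x ∈ W
      · rw [if_pos hx, Finset.sum_eq_single x]
        · simp
        · intro b _ hb
          exact Finsupp.single_eq_of_ne (Ne.symm hb)
        · intro h; exact absurd hx h
      · rw [if_neg hx]
        refine Finset.sum_eq_zero fun b hb => ?_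
        exact Finsupp.single_eq_of_ne (fun h => hx (h ▸ hb))
    constructor
    · intro h x hx
      have := h x
      rw [hval, if_pos hx] at this
      rw [Finsupp.mem_support_iff]
      omega
    · intro h x
      rw [hval]
      by_cases hx : x ∈ W
      · rw [if_pos hx]
        exact Nat.one_le_iff_ne_zero.2 (Finsupp.mem_support_iff.1 (h hx))
      · rw [if_neg hx]; exact Nat.zero_le _
  unfold InP
  refine forall_congr' fun m => forall_congr' fun _ => ?_
  unfold Bad
  constructor
  · rintro ⟨s, ⟨i, W, h1, h2, rfl⟩, h3⟩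
    rw [hle] at h3
    right
    refine ⟨i, ?_⟩
    rw [Finset.empty_union]
    have hW : W ⊆ cnb G i := fun j hj => mem_cnb.2 (h1 j hj)
    have h4 : (cnb G i \ m.support).card ≤ (cnb G i \ W).card :=
      Finset.card_le_card (Finset.sdiff_subset_sdiff (Finset.Subset.refl _) h3)
    have h5 := Finset.card_sdiff_add_card_eq_card hW
    have h6 := card_cnb G i
    omega
  · rintro (⟨j, hj, _⟩ | ⟨i, hi⟩)
    · simp at hj
    · rw [Finset.empty_union] at hi
      have h6 := card_cnb G i
      have h7 := Finset.card_sdiff_add_card_inter (cnb G i) m.support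
      obtain ⟨W, hW, hWc⟩ := Finset.exists_subset_card_eq
        (s := cnb G i ∩ m.support) (n := (G.neighborSet i).ncard) (by omega)
      refine ⟨_, ⟨i, W, ?_, hWc, rfl⟩, ?_⟩
      · intro j hj
        exact mem_cnb.1 (Finset.mem_inter.1 (hW hj)).1
      · rw [hle]
        exact hW.trans Finset.inter_subset_right

lemma regQuot_le {I : Ideal (MvPolynomial (Fin n) K)} {r : ℕ}
    (h : ∀ i d, r < d → ¬ HasTor I i d) : regQuot I ≤ r := by
  unfold regQuot
  refine iSup_le fun d => iSup_le fun hd => ?_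
  obtain ⟨i, hi⟩ := hd
  by_contra hcon
  have : r < d := by
    by_contra h2
    exact hcon (by exact_mod_cast not_lt.1 h2)
  exact h i d this hi

/-- The vanishing for the state ideals. -/
lemma vanish_main {G : SimpleGraph (Fin n)} {o : Fin n → ℕ} (hP : IsPEO G o)
    {C : Finset (Fin n)} (hcov : ∀ a b, G.Adj a b → a ∈ C ∨ b ∈ C)
    (hmin : ∀ c ∈ C, ∃ j, j ∉ C ∧ G.Adj c j) :
    Vanish K (Bad G ∅ ∅) (C.card - Nat.card G.ConnectedComponent) := by
  classical
  set c := Nat.card G.ConnectedComponent with hc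
  apply vanish_branch K C ∅ ∅ _ (by simp) (by simp)
  intro A hA hn
  rw [Finset.empty_union] at hn
  simp only [Finset.empty_union]
  have hcA := comb hP hcov hmin hA (B := ∅) (by simp) (by simpa using hn)
  rw [← hc, Finset.card_empty, Finset.card_sdiff_of_subset hA] at hcA
  have hAc := Finset.card_le_card hA
  have hY2 : ∀ j, j ∈ Y2 G C A ↔ j ∉ C ∧ 2 ≤ (cnb G j ∩ (C \ A)).card := by
    intro j; unfold Y2; simp
  have hY1 : ∀ j, j ∈ Y1 G C A ↔ j ∉ C ∧ (cnb G j ∩ (C \ A)).card ≤ 1 := by
    intro j; unfold Y1; simp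
  have hXs : ∀ i, i ∈ Xs G C A ↔ i ∈ C ∧
      (cnb G i ∩ (C \ A)).card + (cnb G i ∩ Y1 G C A).card ≤ 1 := by
    intro i; unfold Xs; simp
  have hYs : ∀ j, j ∈ Ys G C A ↔ j ∈ Y2 G C A ∧ ∃ i ∈ Xs G C A, G.Adj i j := by
    intro j; unfold Ys; simp
  refine ⟨C.card - c - A.card, by omega, ?_⟩
  -- the forced variables
  apply vanish_branch K (Y1 G C A) A C
  · rw [Finset.disjoint_left]
    intro j hj hjC
    exact ((hY1 j).1 hj).1 hjC
  · rw [Finset.disjoint_left]
    intro j hj hjA
    exact ((hY1 j).1 hj).1 (hA hjA)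
  intro B hB hnB
  have hB0 : B = ∅ := by
    by_contra hne
    obtain ⟨b, hb⟩ := Finset.nonempty_iff_ne_empty.2 hne
    have hb1 := (hY1 b).1 (hB hb)
    have hsub : cnb G b \ (A ∪ B) ⊆ cnb G b ∩ (C \ A) := by
      intro x hx
      rw [Finset.mem_sdiff, Finset.mem_union, not_or] at hx
      rw [Finset.mem_inter, Finset.mem_sdiff]
      refine ⟨hx.1, ?_, hx.2.1⟩
      rcases mem_cnb.1 hx.1 with h | h
      · exact absurd (h ▸ hb) hx.2.2
      · exact (hcov b x h).resolve_left hb1.1
    have := Finset.card_le_card hsub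
    have := hnB b
    omega
  subst hB0
  refine ⟨C.card - c - A.card, by simp, ?_⟩
  rw [Finset.union_empty]
  -- the free variables
  apply vanish_free_set K (Y2 G C A \ Ys G C A)
  · rw [Finset.disjoint_left]
    intro j hj hjE
    rw [Finset.mem_sdiff, hY2] at hj
    rw [Finset.mem_union, hY1] at hjE
    rcases hjE with h | h
    · exact hj.1.1 h
    · omega
  · intro v hv i hi
    rw [Finset.mem_sdiff, hY2] at hv
    have hvX : ∀ i, G.Adj i v → i ∉ Xs G C A := by
      intro i hiv hiX
      apply hv.2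
      rw [hYs]
      exact ⟨(hY2 v).2 hv.1, i, hiX, hiv⟩
    rcases mem_cnb.1 hi with h | h
    · subst h
      refine le_trans hv.1.2 (Finset.card_le_card ?_)
      apply Finset.inter_subset_inter_left
      exact Finset.sdiff_subset_sdiff Finset.subset_union_left (Finset.Subset.refl _)
    · have hiC : i ∈ C := (hcov v i h).resolve_left hv.1.1
      have hiX := hvX i h.symm
      rw [hXs] at hiX
      have h2 : 2 ≤ (cnb G i ∩ (C \ A)).card + (cnb G i ∩ Y1 G C A).card := by
        by_contra hlt
        exact hiX ⟨hiC, by omega⟩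
      have hdisj : Disjoint (cnb G i ∩ (C \ A)) (cnb G i ∩ Y1 G C A) := by
        rw [Finset.disjoint_left]
        intro x hx hx'
        rw [Finset.mem_inter, Finset.mem_sdiff] at hx
        rw [Finset.mem_inter, hY1] at hx'
        exact hx'.2.1 hx.2.1
      rw [← Finset.card_union_of_disjoint hdisj] at h2
      refine le_trans h2 (Finset.card_le_card ?_)
      intro x hx
      rw [Finset.mem_union, Finset.mem_inter, Finset.mem_inter, Finset.mem_sdiff] at hx
      rw [Finset.mem_inter, Finset.mem_sdiff, Finset.mem_union]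
      rcases hx with ⟨h3, h4, h5⟩ | ⟨h3, h4⟩
      · exact ⟨h3, Or.inl h4, h5⟩
      · exact ⟨h3, Or.inr h4, fun h5 => ((hY1 x).1 h4).1 (hA h5)⟩
  -- the remaining variables
  apply vanish_branch K (Ys G C A)
  · rw [Finset.disjoint_left]
    intro j hj hjE
    have hj2 := ((hYs j).1 hj).1
    rw [hY2] at hj2
    rw [Finset.mem_union, Finset.mem_union, Finset.mem_sdiff, hY1] at hjE
    rcases hjE with (h | h) | h
    · exact hj2.1 h
    · omega
    · exact h.2 hj
  · rw [Finset.disjoint_left]
    intro j hj hjA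
    have hj2 := ((hYs j).1 hj).1
    rw [hY2] at hj2
    exact hj2.1 (hA hjA)
  intro B hB hnB
  have hcB := comb hP hcov hmin hA hB hnB
  rw [← hc, Finset.card_sdiff_of_subset hA] at hcB
  refine ⟨0, by omega, ?_⟩
  have hE : C ∪ Y1 G C A ∪ (Y2 G C A \ Ys G C A) ∪ Ys G C A = Finset.univ := by
    ext x
    simp only [Finset.mem_union, Finset.mem_sdiff, Finset.mem_univ, iff_true, hY1, hY2]
    by_cases hx : x ∈ C
    · exact Or.inl (Or.inl (Or.inl hx))
    · by_cases hy : x ∈ Ys G C A
      · exact Or.inr hy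
      · left
        rcases Nat.lt_or_ge (cnb G x ∩ (C \ A)).card 2 with h | h
        · exact Or.inl (Or.inr ⟨hx, by omega⟩)
        · exact Or.inr ⟨⟨hx, h⟩, hy⟩
  rw [hE]
  exact vanish_univ K _

/-- **Main theorem.** For every chordal graph `G` without isolated vertices and every field,
`reg (S / NI_k(G)) + c(G) ≤ τ(G)`, where `k` is the degree-vector of `G`. -/
theorem result {K : Type*} [Field K] {n : ℕ} (G : SimpleGraph (Fin n)) (hG : IsChordal G)
    (hiso : ∀ v, ∃ w, G.Adj v w) :
    regQuot (NI K G) + (Nat.card G.ConnectedComponent : ℕ∞) ≤ G.vertexCoverNum := by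
  classical
  obtain ⟨o, hP⟩ := exists_peo (isChordal_bridge hG)
  obtain ⟨s, hs, hcov⟩ := G.vertexCoverNum_exists
  set C : Finset (Fin n) := Finset.univ.filter (· ∈ s) with hC
  have hmem : ∀ x, x ∈ C ↔ x ∈ s := by intro x; simp [hC]
  have hCs : (C : Set (Fin n)) = s := by ext x; simp [hC]
  have hcard : (C.card : ℕ∞) = G.vertexCoverNum := by
    rw [← hs, ← hCs, Set.encard_coe_eq_coe_finsetCard]
  have hcovC : ∀ a b, G.Adj a b → a ∈ C ∨ b ∈ C := by
    intro a b hab
    rw [hmem, hmem]
    exact hcov hab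
  have hmin : ∀ c ∈ C, ∃ j, j ∉ C ∧ G.Adj c j := by
    intro c hc
    by_contra hcon
    push Not at hcon
    have hcov' : G.IsVertexCover ((C.erase c : Finset (Fin n)) : Set (Fin n)) := by
      intro a b hab
      simp only [Finset.coe_erase, Set.mem_sdiff, Finset.mem_coe, Set.mem_singleton_iff]
      by_cases hac : a = c
      · right
        subst hac
        refine ⟨?_, hab.ne'⟩
        by_contra hb
        exact hcon b hb hab
      · by_cases hbc : b = c
        · left
          subst hbc
          refine ⟨?_, hac⟩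
          by_contra ha
          exact hcon a ha hab.symm
        · rcases hcovC a b hab with h | h
          · exact Or.inl ⟨h, hac⟩
          · exact Or.inr ⟨h, hbc⟩
    have h1 := hcov'.vertexCoverNum_le
    rw [Set.encard_coe_eq_coe_finsetCard, ← hcard, Finset.card_erase_of_mem hc] at h1
    have h2 : C.card ≤ C.card - 1 := by exact_mod_cast h1
    have h3 : 0 < C.card := Finset.card_pos.2 ⟨c, hc⟩
    omega
  have hV := vanish_main (K := K) hP hcovC hmin
  have hnv : NonVoid G (∅ ∪ ∅) := by
    intro i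
    obtain ⟨w, hw⟩ := hiso i
    have : ({i, w} : Finset (Fin n)) ⊆ cnb G i \ (∅ ∪ ∅) := by
      intro x hx
      simp only [Finset.mem_insert, Finset.mem_singleton] at hx
      simp only [Finset.union_empty, Finset.sdiff_empty, mem_cnb]
      rcases hx with rfl | rfl
      · exact Or.inl rfl
      · exact Or.inr hw
    refine le_trans ?_ (Finset.card_le_card this)
    rw [Finset.card_pair hw.ne]
  have hc := comb hP hcovC hmin (A := ∅) (B := ∅) (by simp) (by simp) hnv
  simp only [Finset.card_empty, zero_add, Finset.sdiff_empty] at hc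
  have hreg : regQuot (NI K G) ≤ ((C.card - Nat.card G.ConnectedComponent : ℕ) : ℕ∞) := by
    apply regQuot_le
    intro i d hd ht
    obtain ⟨f, hf0, hfh, hfc, hnb⟩ := ht
    apply hnb
    obtain ⟨g, hg0, hg⟩ := hV i d hd f hf0 hfh (fun S => (mem_NI G _).1 (hfc S))
    exact ⟨g, hg0, fun T => (mem_NI G _).2 (hg T)⟩
  calc regQuot (NI K G) + (Nat.card G.ConnectedComponent : ℕ∞)
      ≤ ((C.card - Nat.card G.ConnectedComponent : ℕ) : ℕ∞) +
        (Nat.card G.ConnectedComponent : ℕ∞) := by gcongr
    _ = (C.card : ℕ∞) := by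
        rw [← Nat.cast_add, Nat.sub_add_cancel hc]
    _ = G.vertexCoverNum := hcard

end Pool.Agent.Results.MP_0205ad_al.ChordalRegularity
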